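import Mathlib

/-! Truncated group rings of graded monoids and their groups of one-units. -/

set_option autoImplicit false

open Finset

namespace Pool.Agent.H72.UJ

/-- A monoid graded by a length function with finite level sets. -/
class Gr (T : Type*) [Monoid T] where
  len : T → ℕ
  len_mul : ∀ a b : T, len (a * b) = len a + len b
  len_zero : ∀ a : T, len a = 0 ↔ a = 1
  fin : ∀ n : ℕ, {m : T | len m = n}.Finite

export Gr (len len_mul len_zero)

variable {T : Type*} [Monoid T] [Gr T]

@[simp] theorem len_one : len (1 : T) = 0 := (len_zero _).2 rfl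

theorem fin_le (n : ℕ) : {m : T | len m ≤ n}.Finite := by
  have : {m : T | len m ≤ n} = ⋃ k ∈ Set.Iic n, {m : T | len m = k} := by
    ext m; simp
  rw [this]
  exact (Set.finite_Iic n).biUnion fun k _ => Gr.fin k

variable (T) in
/-- The elements of length at most `n`. -/
noncomputable def upto (n : ℕ) : Finset T := (fin_le (T := T) n).toFinset

@[simp] theorem mem_upto {n : ℕ} {m : T} : m ∈ upto T n ↔ len m ≤ n := by
  simp [upto]

variable (T) in
/-- The nontrivial elements of length at most `n`. -/
noncomputable def pos (n : ℕ) : Finset T := by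
  classical exact (upto T n).erase 1

@[simp] theorem mem_pos {n : ℕ} {m : T} : m ∈ pos T n ↔ m ≠ 1 ∧ len m ≤ n := by
  classical
  simp [pos]

theorem fac_finite (m : T) : {p : T × T | p.1 * p.2 = m}.Finite := by
  refine ((fin_le (T := T) (len m)).prod (fin_le (T := T) (len m))).subset ?_
  rintro ⟨a, b⟩ h
  simp only [Set.mem_ofPred_eq] at h
  subst h
  simp [len_mul]

/-- The factorisations of an element. -/
noncomputable def fac (m : T) : Finset (T × T) := (fac_finite m).toFinset

@[simp] theorem mem_fac {m : T} {p : T × T} : p ∈ fac m ↔ p.1 * p.2 = m := by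
  simp [fac]

/-- The proper factorisations of an element. -/
noncomputable def pfac (m : T) : Finset (T × T) := by
  classical exact (fac m).filter fun p => p.1 ≠ 1 ∧ p.2 ≠ 1

@[simp] theorem mem_pfac {m : T} {p : T × T} :
    p ∈ pfac m ↔ p.1 * p.2 = m ∧ p.1 ≠ 1 ∧ p.2 ≠ 1 := by
  classical
  simp [pfac]

theorem len_pos {m : T} (h : m ≠ 1) : 0 < len m :=
  Nat.pos_of_ne_zero fun h0 => h ((len_zero _).1 h0)

theorem mem_pfac_len {m : T} {p : T × T} (h : p ∈ pfac m) :
    0 < len p.1 ∧ 0 < len p.2 ∧ len p.1 + len p.2 = len m := by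
  rw [mem_pfac] at h
  refine ⟨len_pos h.2.1, len_pos h.2.2, ?_⟩
  rw [← len_mul, h.1]

/-- Splitting off the two trivial factorisations. -/
theorem sum_fac {M : Type*} [AddCommMonoid M] {m : T} (hm : m ≠ 1) (f : T × T → M) :
    ∑ p ∈ fac m, f p = f (m, 1) + f (1, m) + ∑ p ∈ pfac m, f p := by
  classical
  have h1 : fac m = {(m, 1), (1, m)} ∪ pfac m := by
    ext ⟨a, b⟩
    simp only [mem_fac, mem_union, mem_insert, mem_singleton, Prod.mk.injEq, mem_pfac]
    constructor
    · intro h
      by_cases ha : a = 1
      · left; right; subst ha; simpa using h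
      · by_cases hb : b = 1
        · left; left; subst hb; simpa using h
        · right; exact ⟨h, ha, hb⟩
    · rintro ((⟨rfl, rfl⟩ | ⟨rfl, rfl⟩) | h)
      · simp
      · simp
      · exact h.1
  rw [h1, Finset.sum_union]
  · rw [Finset.sum_pair]
    intro h
    exact hm (congrArg Prod.fst h)
  · rw [Finset.disjoint_left]
    rintro ⟨a, b⟩ h
    simp only [mem_insert, mem_singleton, Prod.mk.injEq] at h
    rw [mem_pfac]
    rintro ⟨-, h2, h3⟩
    rcases h with ⟨-, h⟩ | ⟨h, -⟩
    · exact h3 h
    · exact h2 h

/-! ## The truncated ring -/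

variable (T) in
/-- The ideal of all elements supported in length greater than `j`. -/
def trI (j : ℕ) : Ideal (MonoidAlgebra ℤ T) where
  carrier := {f | ∀ m, len m ≤ j → f.coeff m = 0}
  add_mem' := by
    intro a b ha hb m hm
    rw [MonoidAlgebra.coeff_add, Finsupp.add_apply, ha m hm, hb m hm, add_zero]
  zero_mem' := by
    intro m _
    rfl
  smul_mem' := by
    intro c x hx m hm
    rw [smul_eq_mul, MonoidAlgebra.coeff_mul_antidiag c x m (fac m) (by simp)]
    refine Finset.sum_eq_zero fun p hp => ?_
    rw [mem_fac] at hp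
    have : len p.2 ≤ j := by
      have := len_mul p.1 p.2
      rw [hp] at this
      omega
    rw [hx p.2 this, mul_zero]

instance (j : ℕ) : (trI T j).IsTwoSided where
  mul_mem_of_left := by
    intro a b ha m hm
    rw [MonoidAlgebra.coeff_mul_antidiag a b m (fac m) (by simp)]
    refine Finset.sum_eq_zero fun p hp => ?_
    rw [mem_fac] at hp
    have : len p.1 ≤ j := by
      have := len_mul p.1 p.2
      rw [hp] at this
      omega
    rw [ha p.1 this, zero_mul]

variable (T) in
/-- The truncated ring. -/
abbrev R (j : ℕ) : Type _ := MonoidAlgebra ℤ T ⧸ trI T j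

/-- The coefficient at `m` of an element of the group ring, if `m` is short. -/
noncomputable def coef0 (j : ℕ) (m : T) : MonoidAlgebra ℤ T →+ ℤ where
  toFun f := if len m ≤ j then f.coeff m else 0
  map_zero' := by simp
  map_add' := by
    intro f g
    split_ifs <;> simp

/-- The coefficients. -/
noncomputable def coef (j : ℕ) (m : T) : R T j →+ ℤ :=
  QuotientAddGroup.lift (trI T j).toAddSubgroup (coef0 j m)
    (by
      intro f hf
      change (if len m ≤ j then f.coeff m else 0) = 0
      split_ifs with h
      · exact hf m h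
      · rfl)

variable {j : ℕ}

theorem coef_mk {m : T} (hm : len m ≤ j) (f : MonoidAlgebra ℤ T) :
    coef j m (Ideal.Quotient.mk (trI T j) f) = f.coeff m := by
  change (if len m ≤ j then f.coeff m else 0) = _
  rw [if_pos hm]

theorem ext_coef {x y : R T j} (h : ∀ m : T, len m ≤ j → coef j m x = coef j m y) : x = y := by
  obtain ⟨f, rfl⟩ := Ideal.Quotient.mk_surjective x
  obtain ⟨g, rfl⟩ := Ideal.Quotient.mk_surjective y
  rw [Ideal.Quotient.eq]
  intro m hm
  have := h m hm
  rw [coef_mk hm, coef_mk hm] at this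
  rw [MonoidAlgebra.coeff_sub, Finsupp.sub_apply, this, sub_self]

theorem coef_mul {m : T} (hm : len m ≤ j) (x y : R T j) :
    coef j m (x * y) = ∑ p ∈ fac m, coef j p.1 x * coef j p.2 y := by
  obtain ⟨f, rfl⟩ := Ideal.Quotient.mk_surjective x
  obtain ⟨g, rfl⟩ := Ideal.Quotient.mk_surjective y
  rw [← map_mul, coef_mk hm, MonoidAlgebra.coeff_mul_antidiag f g m (fac m) (by simp)]
  refine Finset.sum_congr rfl fun p hp => ?_
  rw [mem_fac] at hp
  have := len_mul p.1 p.2
  rw [hp] at this
  rw [coef_mk (by omega), coef_mk (by omega)]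

theorem coef_one_one : coef j (1 : T) (1 : R T j) = 1 := by
  rw [← map_one (Ideal.Quotient.mk (trI T j)), coef_mk (by simp)]
  exact MonoidAlgebra.coeff_one_one

theorem coef_one {m : T} (hm : m ≠ 1) (hj : len m ≤ j) : coef j m (1 : R T j) = 0 := by
  classical
  rw [← map_one (Ideal.Quotient.mk (trI T j)), coef_mk hj]
  rw [MonoidAlgebra.one_def]
  exact Finsupp.single_eq_of_ne hm

theorem coef_one_mul (x y : R T j) : coef j (1 : T) (x * y) = coef j 1 x * coef j 1 y := by
  rw [coef_mul (by simp)]
  have : fac (1 : T) = {(1, 1)} := by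
    ext ⟨a, b⟩
    simp only [mem_fac, mem_singleton, Prod.mk.injEq]
    constructor
    · intro h
      have := len_mul a b
      rw [h, len_one] at this
      exact ⟨(len_zero _).1 (by omega), (len_zero _).1 (by omega)⟩
    · rintro ⟨rfl, rfl⟩
      simp
  rw [this, Finset.sum_singleton]

/-- The element with given coefficients. -/
noncomputable def ofC (j : ℕ) (c : T → ℤ) : R T j :=
  Ideal.Quotient.mk (trI T j) (∑ m ∈ upto T j, MonoidAlgebra.single m (c m))

theorem coef_ofC (c : T → ℤ) {m : T} (hm : len m ≤ j) : coef j m (ofC j c) = c m := by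
  classical
  rw [ofC, coef_mk hm, MonoidAlgebra.coeff_sum, Finsupp.finset_sum_apply]
  rw [Finset.sum_eq_single m]
  · exact Finsupp.single_eq_same
  · intro b _ hb
    exact Finsupp.single_eq_of_ne (Ne.symm hb)
  · intro h
    exact absurd (mem_upto.2 hm) h

end Pool.Agent.H72.UJ
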