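import Pool.Agent.H72.UJ.Grp

/-! Congruence subgroups of the group of one-units, and their boxes. -/

set_option autoImplicit false

open Finset

namespace Pool.Agent.H72.UJ

variable {T : Type*} [Monoid T] [Gr T] {j : ℕ}

/-- A system of divisors. -/
structure Dv where
  D : ℕ → ℕ
  pos : ∀ l, 0 < D l
  dvd : ∀ a b, D (a + b) ∣ D a * D b

/-- The congruence subgroup. -/
def Cg (T : Type*) [Monoid T] [Gr T] (j : ℕ) (d : Dv) : Subgroup (Un T j) where
  carrier := {g | ∀ m : T, m ≠ 1 → len m ≤ j → (d.D (len m) : ℤ) ∣ c g m}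
  mul_mem' := by
    intro g h hg hh m h1 hm
    rw [c_mul g h h1 hm]
    refine dvd_add (dvd_add (hg m h1 hm) (hh m h1 hm)) (dvd_sum fun p hp => ?_)
    have hl := mem_pfac_len hp
    rw [mem_pfac] at hp
    have e1 := hg p.1 hp.2.1 (by omega)
    have e2 := hh p.2 hp.2.2 (by omega)
    rw [← hl.2.2]
    refine dvd_trans ?_ (mul_dvd_mul e1 e2)
    exact_mod_cast d.dvd _ _
  one_mem' := by
    intro m h1 hm
    rw [c_one h1 hm]
    exact dvd_zero _
  inv_mem' := by
    intro g hg
    suffices H : ∀ n : ℕ, ∀ m : T, len m = n → m ≠ 1 → len m ≤ j →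
        (d.D (len m) : ℤ) ∣ c g⁻¹ m from fun m h1 hm => H _ m rfl h1 hm
    intro n
    induction n using Nat.strong_induction_on with
    | _ n ih =>
      intro m hn h1 hm
      have e := c_mul g g⁻¹ h1 hm
      rw [mul_inv_cancel, c_one h1 hm] at e
      have e' : c g⁻¹ m = -(c g m + ∑ p ∈ pfac m, c g p.1 * c g⁻¹ p.2) := by linarith
      rw [e', dvd_neg]
      refine dvd_add (hg m h1 hm) (dvd_sum fun p hp => ?_)
      have hl := mem_pfac_len hp
      rw [mem_pfac] at hp
      have e1 := hg p.1 hp.2.1 (by omega)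
      have e2 := ih (len p.2) (by omega) p.2 rfl hp.2.2 (by omega)
      rw [← hl.2.2]
      refine dvd_trans ?_ (mul_dvd_mul e1 e2)
      exact_mod_cast d.dvd _ _

theorem mem_Cg {d : Dv} {g : Un T j} :
    g ∈ Cg T j d ↔ ∀ m : T, m ≠ 1 → len m ≤ j → (d.D (len m) : ℤ) ∣ c g m := Iff.rfl

/-- The coordinates are a bijection. -/
noncomputable def coords : Un T j ≃ ((pos T j) → ℤ) where
  toFun g m := c g m.1
  invFun a := by
    classical exact ofCoord j fun m => if h : m ∈ pos T j then a ⟨m, h⟩ else 0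
  left_inv := by
    intro g
    refine c_ext fun m h1 hm => ?_
    rw [c_ofCoord _ h1 hm, dif_pos (mem_pos.2 ⟨h1, hm⟩)]
  right_inv := by
    intro a
    funext m
    have := mem_pos.1 m.2
    exact (c_ofCoord _ this.1 this.2).trans (dif_pos m.2)

/-- The box, in coordinates. -/
noncomputable def cbox (T : Type*) [Monoid T] [Gr T] (j : ℕ) (d : Dv) :
    Finset ((pos T j) → ℤ) := by
  classical exact Fintype.piFinset fun m : pos T j => Finset.Ico (0 : ℤ) (d.D (len m.1))

/-- The box. -/
noncomputable def box (T : Type*) [Monoid T] [Gr T] (j : ℕ) (d : Dv) : Finset (Un T j) :=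
  (cbox T j d).map coords.symm.toEmbedding

theorem mem_box {d : Dv} {g : Un T j} :
    g ∈ box T j d ↔ ∀ m : T, m ≠ 1 → len m ≤ j → 0 ≤ c g m ∧ c g m < d.D (len m) := by
  classical
  unfold box cbox
  rw [Finset.mem_map_equiv, Equiv.symm_symm, Fintype.mem_piFinset]
  constructor
  · intro h m h1 hm
    exact Finset.mem_Ico.1 (h ⟨m, mem_pos.2 ⟨h1, hm⟩⟩)
  · intro h m
    exact Finset.mem_Ico.2 (h m.1 (mem_pos.1 m.2).1 (mem_pos.1 m.2).2)

theorem card_box (d : Dv) : (box T j d).card = ∏ m : pos T j, d.D (len m.1) := by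
  classical
  unfold box cbox
  rw [Finset.card_map, Fintype.card_piFinset]
  refine prod_congr rfl fun m _ => ?_
  rw [Int.card_Ico]
  simp

theorem box_unique {d : Dv} {b : Un T j} (hb : b ∈ Cg T j d) {e e' : Un T j}
    (he : e ∈ box T j d) (he' : e' ∈ box T j d) (h : b * e = e') : b = 1 := by
  rw [mem_box] at he he'
  refine c_ext fun m h1 hm => ?_
  rw [c_one h1 hm]
  suffices H : ∀ n : ℕ, ∀ m : T, len m = n → m ≠ 1 → len m ≤ j → c b m = 0 from H _ m rfl h1 hm
  clear h1 hm m
  intro n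
  induction n using Nat.strong_induction_on with
  | _ n ih =>
    intro m hn h1 hm
    have e1 := c_mul b e h1 hm
    have e2 : ∑ p ∈ pfac m, c b p.1 * c e p.2 = 0 := by
      refine sum_eq_zero fun p hp => ?_
      have hl := mem_pfac_len hp
      rw [mem_pfac] at hp
      rw [ih (len p.1) (by omega) p.1 rfl hp.2.1 (by omega), zero_mul]
    rw [e2, h, add_zero] at e1
    have h3 := hb m h1 hm
    have h4 := he m h1 hm
    have h5 := he' m h1 hm
    refine Int.eq_zero_of_abs_lt_dvd h3 ?_
    rw [abs_lt]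
    constructor <;> linarith [h4.1, h4.2, h5.1, h5.2]

theorem box_exists (d : Dv) (g : Un T j) : ∃ b ∈ Cg T j d, b * g ∈ box T j d := by
  classical
  suffices H : ∀ k : ℕ, ∃ b ∈ Cg T j d, ∀ m : T, m ≠ 1 → len m ≤ j → len m ≤ k →
      0 ≤ c (b * g) m ∧ c (b * g) m < d.D (len m) by
    obtain ⟨b, hb, h⟩ := H j
    exact ⟨b, hb, mem_box.2 fun m h1 hm => h m h1 hm hm⟩
  intro k
  induction k with
  | zero =>
    refine ⟨1, one_mem _, fun m h1 _ h0 => ?_⟩
    exact absurd ((len_zero m).1 (by omega)) h1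
  | succ k ih =>
    obtain ⟨b, hb, h⟩ := ih
    set a : T → ℤ := fun m => if len m = k + 1 then
      -((c (b * g) m / (d.D (len m) : ℤ)) * d.D (len m)) else 0 with ha
    set b' : Un T j := ofCoord j a with hb'
    have hc : ∀ m : T, m ≠ 1 → len m ≤ j → c b' m = a m := fun m h1 hm => c_ofCoord a h1 hm
    have hsum : ∀ m : T, m ≠ 1 → len m ≤ j → len m ≤ k + 1 →
        c (b' * (b * g)) m = a m + c (b * g) m := by
      intro m h1 hm hk
      rw [c_mul _ _ h1 hm, hc m h1 hm]
      have : ∑ p ∈ pfac m, c b' p.1 * c (b * g) p.2 = 0 := by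
        refine sum_eq_zero fun p hp => ?_
        have hl := mem_pfac_len hp
        rw [mem_pfac] at hp
        rw [hc p.1 hp.2.1 (by omega)]
        have : a p.1 = 0 := by
          rw [ha]
          exact if_neg (by omega)
        rw [this, zero_mul]
      rw [this, add_zero]
    refine ⟨b' * b, mul_mem ?_ hb, fun m h1 hm hk => ?_⟩
    · intro m h1 hm
      rw [hc m h1 hm, ha]
      dsimp only
      split_ifs with h'
      · exact (dvd_neg).2 (dvd_mul_left _ _)
      · exact dvd_zero _
    · rw [mul_assoc, hsum m h1 hm hk]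
      by_cases h' : len m = k + 1
      · have : a m = -((c (b * g) m / (d.D (len m) : ℤ)) * d.D (len m)) := by
          rw [ha]
          exact if_pos h'
        rw [this]
        have hD : (0 : ℤ) < d.D (len m) := by exact_mod_cast d.pos _
        have e1 := Int.emod_nonneg (c (b * g) m) hD.ne'
        have e2 := Int.emod_lt_of_pos (c (b * g) m) hD
        have e3 := Int.emod_add_ediv_mul (c (b * g) m) (d.D (len m))
        constructor <;> linarith
      · have : a m = 0 := by
          rw [ha]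
          exact if_neg h'
        rw [this, zero_add]
        exact h m h1 hm (by omega)

theorem box_bij (d : Dv) : Function.Bijective
    (fun x : (Cg T j d) × (box T j d) => (x.1 : Un T j) * (x.2 : Un T j)) := by
  constructor
  · rintro ⟨⟨b, hb⟩, ⟨e, he⟩⟩ ⟨⟨b', hb'⟩, ⟨e', he'⟩⟩ h
    simp only at h
    have h1 : (b'⁻¹ * b) * e = e' := by
      rw [mul_assoc, h, inv_mul_cancel_left]
    have h2 := box_unique (mul_mem (inv_mem hb') hb) he he' h1
    have h3 : b = b' := by
      rw [inv_mul_eq_one] at h2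
      exact h2.symm
    subst h3
    have h4 : e = e' := mul_left_cancel h
    subst h4
    rfl
  · intro g
    obtain ⟨b, hb, h⟩ := box_exists d g
    refine ⟨⟨⟨b⁻¹, inv_mem hb⟩, ⟨b * g, h⟩⟩, ?_⟩
    simp

/-! ## Constant divisors -/

/-- The constant system. -/
def Dv.const (N : ℕ) (hN : 0 < N) : Dv := ⟨fun _ => N, fun _ => hN, fun _ _ => dvd_mul_right _ _⟩

theorem mem_const {N : ℕ} {hN : 0 < N} {g : Un T j} :
    g ∈ Cg T j (Dv.const N hN) ↔
      ∃ w : R T j, ((g : (R T j)ˣ) : R T j) = 1 + (N : R T j) * w := by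
  have hNw : ∀ (m : T) (w : R T j), coef j m ((N : R T j) * w) = N * coef j m w := by
    intro m w
    rw [← nsmul_eq_mul, map_nsmul, nsmul_eq_mul]
  constructor
  · intro h
    refine ⟨ofC j fun m => (c g m - coef j m 1) / (N : ℤ), ext_coef fun m hm => ?_⟩
    rw [map_add, hNw, coef_ofC _ hm]
    have h0 : (N : ℤ) ∣ c g m - coef j m 1 := by
      by_cases h1 : m = 1
      · subst h1
        simp [coef_one_one]
      · rw [coef_one h1 hm, sub_zero]
        exact h m h1 hm
    rw [Int.mul_ediv_cancel' h0]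
    change c g m = _
    ring
  · rintro ⟨w, hw⟩ m h1 hm
    change (N : ℤ) ∣ coef j m ((g : (R T j)ˣ) : R T j)
    rw [hw, map_add, coef_one h1 hm, zero_add, hNw]
    exact dvd_mul_right _ _

instance const_normal (N : ℕ) (hN : 0 < N) : (Cg T j (Dv.const N hN)).Normal := by
  refine ⟨fun n hn g => ?_⟩
  rw [mem_const] at hn ⊢
  obtain ⟨w, hw⟩ := hn
  refine ⟨((g : (R T j)ˣ) : R T j) * w * (((g : (R T j)ˣ)⁻¹ : (R T j)ˣ) : R T j), ?_⟩
  have e : (((g * n * g⁻¹ : Un T j) : (R T j)ˣ) : R T j) =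
      ((g : (R T j)ˣ) : R T j) * ((n : (R T j)ˣ) : R T j) *
        (((g : (R T j)ˣ)⁻¹ : (R T j)ˣ) : R T j) := rfl
  rw [e, hw, mul_add, mul_one, add_mul, Units.mul_inv]
  congr 1
  have hc := (Nat.cast_commute N ((g : (R T j)ˣ) : R T j)).eq
  rw [← mul_assoc, ← mul_assoc, ← mul_assoc, hc]

theorem card_quot (d : Dv) : Nat.card (Quotient (QuotientGroup.rightRel (Cg T j d))) =
    ∏ m : pos T j, d.D (len m.1) := by
  rw [← card_box]
  have h : Function.Bijective (fun e : box T j d =>
      (Quotient.mk (QuotientGroup.rightRel (Cg T j d)) (e : Un T j))) := by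
    constructor
    · rintro ⟨e, he⟩ ⟨e', he'⟩ h
      have h1 : QuotientGroup.rightRel (Cg T j d) e e' := Quotient.exact h
      rw [QuotientGroup.rightRel_apply] at h1
      have h2 := box_unique h1 he he' (by rw [inv_mul_cancel_right])
      rw [mul_inv_eq_one] at h2
      subst h2
      rfl
    · intro q
      obtain ⟨g, rfl⟩ := Quotient.exists_rep q
      obtain ⟨b, hb, h⟩ := box_exists d g
      refine ⟨⟨b * g, h⟩, Quotient.sound ?_⟩
      change QuotientGroup.rightRel (Cg T j d) (b * g) g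
      rw [QuotientGroup.rightRel_apply, mul_inv_rev, mul_inv_cancel_left]
      exact inv_mem hb
  rw [← Nat.card_congr (Equiv.ofBijective _ h)]
  simp

theorem index_Cg (d : Dv) : (Cg T j d).index = ∏ m : pos T j, d.D (len m.1) := by
  rw [← card_quot, Subgroup.index]
  exact Nat.card_congr (QuotientGroup.quotientRightRelEquivQuotientLeftRel _).symm

instance (d : Dv) : (Cg T j d).FiniteIndex := by
  refine ⟨?_⟩
  rw [index_Cg]
  exact (prod_pos fun m _ => d.pos _).ne'

theorem pgroup_const (p s : ℕ) (hp : 0 < p) :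
    IsPGroup p (Un T j ⧸ Cg T j (Dv.const (p ^ s) (pow_pos hp s))) := by
  have h : Nat.card (Un T j ⧸ Cg T j (Dv.const (p ^ s) (pow_pos hp s))) =
      p ^ (s * Fintype.card (pos T j)) := by
    change (Cg T j (Dv.const (p ^ s) (pow_pos hp s))).index = _
    rw [index_Cg]
    change ∏ m : pos T j, p ^ s = _
    rw [prod_const, card_univ, pow_mul]
  exact IsPGroup.of_card h

end Pool.Agent.H72.UJ
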