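import Pool.Agent.H72.UJ.Box

/-! The boxes are almost invariant. -/

set_option autoImplicit false

open Finset

namespace Pool.Agent.H72.UJ

variable {T : Type*} [Monoid T] [Gr T] {j : ℕ}

/-- The divisors `2 ^ (t l)`. -/
def Dv.two (t : ℕ) : Dv :=
  ⟨fun l => 2 ^ (t * l), fun _ => pow_pos (by norm_num) _, fun a b => by
    rw [Nat.mul_add, pow_add]⟩

/-- Counting one coordinate. -/
theorem card_coord {ι : Type*} [Fintype ι] [DecidableEq ι] (S : ι → Finset ℤ) (i : ι)
    (A : Finset ℤ) :
    ((Fintype.piFinset S).filter fun x => x i ∈ A).card * (S i).card ≤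
      A.card * (Fintype.piFinset S).card := by
  classical
  have h : ((Fintype.piFinset S).filter fun x => x i ∈ A) ⊆
      Fintype.piFinset (Function.update S i (S i ∩ A)) := by
    intro x hx
    rw [mem_filter, Fintype.mem_piFinset] at hx
    rw [Fintype.mem_piFinset]
    intro k
    by_cases hk : k = i
    · subst hk
      rw [Function.update_self, mem_inter]
      exact ⟨hx.1 k, hx.2⟩
    · rw [Function.update_of_ne hk]
      exact hx.1 k
  have h1 := card_le_card h
  rw [Fintype.card_piFinset] at h1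
  have h2 : ∏ k, (Function.update S i (S i ∩ A) k).card =
      (S i ∩ A).card * ∏ k ∈ univ.erase i, (S k).card := by
    rw [← mul_prod_erase univ _ (mem_univ i), Function.update_self]
    congr 1
    refine prod_congr rfl fun k hk => ?_
    rw [Function.update_of_ne (ne_of_mem_erase hk)]
  have h3 : (Fintype.piFinset S).card = (S i).card * ∏ k ∈ univ.erase i, (S k).card := by
    rw [Fintype.card_piFinset, ← mul_prod_erase univ _ (mem_univ i)]
  rw [h2] at h1
  rw [h3]
  calc _ ≤ ((S i ∩ A).card * ∏ k ∈ univ.erase i, (S k).card) * (S i).card :=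
        Nat.mul_le_mul_right _ h1
    _ ≤ (A.card * ∏ k ∈ univ.erase i, (S k).card) * (S i).card :=
        Nat.mul_le_mul_right _ (Nat.mul_le_mul_right _ (card_le_card inter_subset_right))
    _ = _ := by ring

/-- The size of the displacement. -/
theorem shift_le (h : Un T j) : ∃ C : ℕ, ∀ t : ℕ, ∀ e ∈ box T j (Dv.two t), ∀ m : T, m ≠ 1 →
    len m ≤ j → |c (e * h) m - c e m| ≤ C * 2 ^ (t * (len m - 1)) := by
  classical
  refine ⟨∑ m ∈ upto T j, ((c h m).natAbs + ∑ p ∈ pfac m, (c h p.2).natAbs), ?_⟩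
  intro t e he m h1 hm
  rw [mem_box] at he
  have e1 : c (e * h) m - c e m = c h m + ∑ p ∈ pfac m, c e p.1 * c h p.2 := by
    rw [c_mul e h h1 hm]
    ring
  rw [e1]
  have hP : (1 : ℤ) ≤ 2 ^ (t * (len m - 1)) := one_le_pow₀ (by norm_num)
  have e2 : |c h m + ∑ p ∈ pfac m, c e p.1 * c h p.2| ≤
      (((c h m).natAbs + ∑ p ∈ pfac m, (c h p.2).natAbs : ℕ) : ℤ) * 2 ^ (t * (len m - 1)) := by
    refine (abs_add_le _ _).trans ?_
    push_cast
    rw [add_mul]
    refine add_le_add (le_mul_of_one_le_right (abs_nonneg _) hP) ?_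
    refine (abs_sum_le_sum_abs _ _).trans ?_
    rw [sum_mul]
    refine sum_le_sum fun p hp => ?_
    have hl := mem_pfac_len hp
    rw [mem_pfac] at hp
    rw [abs_mul, mul_comm]
    refine mul_le_mul_of_nonneg_left ?_ (abs_nonneg _)
    have h4 := he p.1 hp.2.1 (by omega)
    rw [abs_of_nonneg h4.1]
    refine h4.2.le.trans ?_
    have : (((Dv.two t).D (len p.1) : ℕ) : ℤ) = 2 ^ (t * len p.1) := by
      change ((2 ^ (t * len p.1) : ℕ) : ℤ) = _
      push_cast
      rfl
    rw [this]
    exact pow_le_pow_right₀ (by norm_num) (Nat.mul_le_mul_left _ (by omega))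
  refine e2.trans (mul_le_mul_of_nonneg_right ?_ (by positivity))
  have := single_le_sum (f := fun m => ((c h m).natAbs + ∑ p ∈ pfac m, (c h p.2).natAbs))
    (fun i _ => Nat.zero_le _) (mem_upto.2 hm)
  exact_mod_cast this

open Classical in
/-- Few elements of the box leave it. -/
theorem leave_le (h : Un T j) : ∃ C : ℕ, ∀ t : ℕ,
    2 ^ t * ((box T j (Dv.two t)).filter fun e => e * h ∉ box T j (Dv.two t)).card ≤
      C * (box T j (Dv.two t)).card := by
  classical
  obtain ⟨C, hC⟩ := shift_le h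
  refine ⟨Fintype.card (pos T j) * (2 * C), fun t => ?_⟩
  set S : pos T j → Finset ℤ := fun m => Finset.Ico (0 : ℤ) ((Dv.two t).D (len m.1)) with hS
  set A : pos T j → Finset ℤ := fun m =>
    Finset.Ico (0 : ℤ) ((C : ℤ) * 2 ^ (t * (len m.1 - 1))) ∪
      Finset.Ico ((2 : ℤ) ^ (t * len m.1) - C * 2 ^ (t * (len m.1 - 1)))
        ((2 : ℤ) ^ (t * len m.1)) with hA
  have hD : ∀ m : T, (((Dv.two t).D (len m) : ℕ) : ℤ) = 2 ^ (t * len m) := by
    intro m
    change ((2 ^ (t * len m) : ℕ) : ℤ) = _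
    push_cast
    rfl
  have hcb : cbox T j (Dv.two t) = Fintype.piFinset S := by
    unfold cbox
    convert rfl
  have hAc : ∀ m, (A m).card ≤ 2 * C * 2 ^ (t * (len m.1 - 1)) := by
    intro m
    refine (card_union_le _ _).trans ?_
    rw [Int.card_Ico, Int.card_Ico]
    have e1 : (((C : ℤ) * 2 ^ (t * (len m.1 - 1)) - 0).toNat) = C * 2 ^ (t * (len m.1 - 1)) := by
      rw [sub_zero]
      have : ((C : ℤ) * 2 ^ (t * (len m.1 - 1))) = ((C * 2 ^ (t * (len m.1 - 1)) : ℕ) : ℤ) := by
        push_cast; rfl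
      rw [this, Int.toNat_natCast]
    have e2 : (((2 : ℤ) ^ (t * len m.1) -
        ((2 : ℤ) ^ (t * len m.1) - C * 2 ^ (t * (len m.1 - 1)))).toNat) =
        C * 2 ^ (t * (len m.1 - 1)) := by
      rw [sub_sub_cancel]
      have : ((C : ℤ) * 2 ^ (t * (len m.1 - 1))) = ((C * 2 ^ (t * (len m.1 - 1)) : ℕ) : ℤ) := by
        push_cast; rfl
      rw [this, Int.toNat_natCast]
    rw [e1, e2]
    exact le_of_eq (by ring)
  have hSc : ∀ m, (S m).card = 2 ^ (t * len m.1) := by
    intro m
    rw [hS]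
    simp only [Int.card_Ico, sub_zero, Int.toNat_natCast]
    rfl
  -- the bad set
  have hbad : ((box T j (Dv.two t)).filter fun e => e * h ∉ box T j (Dv.two t)).card ≤
      ∑ m : pos T j, ((Fintype.piFinset S).filter fun x => x m ∈ A m).card := by
    have hsub : ((box T j (Dv.two t)).filter fun e => e * h ∉ box T j (Dv.two t)).map
        coords.toEmbedding ⊆ univ.biUnion fun m : pos T j =>
          (Fintype.piFinset S).filter fun x => x m ∈ A m := by
      intro x hx
      rw [Finset.mem_map_equiv, mem_filter] at hx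
      obtain ⟨hx1, hx2⟩ := hx
      set e := coords.symm x with he
      have hxe : x = coords e := by rw [he, Equiv.apply_symm_apply]
      rw [mem_box] at hx2
      push Not at hx2
      obtain ⟨m, h1, hm, hx3⟩ := hx2
      have hd := hC t e hx1 m h1 hm
      rw [mem_box] at hx1
      have h5 := hx1 m h1 hm
      rw [hD] at hx3 h5
      rw [mem_biUnion]
      refine ⟨⟨m, mem_pos.2 ⟨h1, hm⟩⟩, mem_univ _, ?_⟩
      rw [mem_filter]
      constructor
      · rw [Fintype.mem_piFinset]
        intro k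
        have hk := mem_pos.1 k.2
        rw [hxe]
        exact Finset.mem_Ico.2 (hx1 k.1 hk.1 hk.2)
      · have hxm : x ⟨m, mem_pos.2 ⟨h1, hm⟩⟩ = c e m := by
          rw [hxe]
          rfl
        rw [hxm, hA]
        simp only [mem_union, Finset.mem_Ico]
        rw [abs_le] at hd
        by_cases h6 : 0 ≤ c (e * h) m
        · right
          have := hx3 h6
          constructor
          · linarith [hd.2]
          · exact h5.2
        · left
          constructor
          · exact h5.1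
          · linarith [hd.1, not_le.1 h6]
    have := card_le_card hsub
    rw [card_map] at this
    exact this.trans card_biUnion_le
  have hone : ∀ m : pos T j, 2 ^ t * ((Fintype.piFinset S).filter fun x => x m ∈ A m).card ≤
      (2 * C) * (box T j (Dv.two t)).card := by
    intro m
    have e1 := card_coord S m (A m)
    have e2 : (box T j (Dv.two t)).card = (Fintype.piFinset S).card := by
      unfold box
      rw [card_map, hcb]
    rw [e2]
    rw [hSc] at e1
    have hl := len_pos (mem_pos.1 m.2).1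
    have e3 : 2 ^ (t * len m.1) = 2 ^ t * 2 ^ (t * (len m.1 - 1)) := by
      rw [← pow_add]
      congr 1
      have : len m.1 = (len m.1 - 1) + 1 := by omega
      conv_lhs => rw [this]
      ring
    rw [e3] at e1
    have hP : 0 < 2 ^ (t * (len m.1 - 1)) := pow_pos (by norm_num) _
    refine Nat.le_of_mul_le_mul_right ?_ hP
    calc _ = ((Fintype.piFinset S).filter fun x => x m ∈ A m).card *
          (2 ^ t * 2 ^ (t * (len m.1 - 1))) := by ring
      _ ≤ (A m).card * (Fintype.piFinset S).card := e1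
      _ ≤ (2 * C * 2 ^ (t * (len m.1 - 1))) * (Fintype.piFinset S).card :=
          Nat.mul_le_mul_right _ (hAc m)
      _ = _ := by ring
  calc _ ≤ 2 ^ t * ∑ m : pos T j, ((Fintype.piFinset S).filter fun x => x m ∈ A m).card :=
        Nat.mul_le_mul_left _ hbad
    _ = ∑ m : pos T j, 2 ^ t * ((Fintype.piFinset S).filter fun x => x m ∈ A m).card := by
        rw [mul_sum]
    _ ≤ ∑ _m : pos T j, (2 * C) * (box T j (Dv.two t)).card := sum_le_sum fun m _ => hone m
    _ = _ := by
        rw [sum_const, card_univ, smul_eq_mul, ← mul_assoc]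

open Classical in
/-- Boxes of normal 2-group quotients. -/
theorem fbox (S : Finset (Un T j)) (ε : ℝ) (hε : 0 < ε) :
    ∃ (W B : Subgroup (Un T j)) (_ : W.Normal) (E : Finset (Un T j)), W ≤ B ∧
      Finite (Un T j ⧸ W) ∧ IsPGroup 2 (Un T j ⧸ W) ∧
      Function.Bijective (fun x : B × E => (x.1 : Un T j) * x.2) ∧
      ((E.filter fun e => ∃ s ∈ S, e * s ∉ E).card : ℝ) ≤ ε * E.card := by
  choose C hC using fun h : Un T j => leave_le h
  obtain ⟨t, ht⟩ : ∃ t : ℕ, ((∑ s ∈ S, C s : ℕ) : ℝ) / ε < 2 ^ t :=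
    pow_unbounded_of_one_lt _ (by norm_num)
  refine ⟨Cg T j (Dv.const (2 ^ (t * j)) (pow_pos (by norm_num) _)), Cg T j (Dv.two t),
    const_normal _ _, box T j (Dv.two t), ?_, inferInstance, pgroup_const 2 (t * j) (by norm_num),
    box_bij _, ?_⟩
  · intro g hg m h1 hm
    refine dvd_trans ?_ (hg m h1 hm)
    change ((2 ^ (t * len m) : ℕ) : ℤ) ∣ ((2 ^ (t * j) : ℕ) : ℤ)
    exact_mod_cast pow_dvd_pow 2 (Nat.mul_le_mul_left _ hm)
  · set E := box T j (Dv.two t) with hE
    have h1 : (E.filter fun e => ∃ s ∈ S, e * s ∉ E).card ≤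
        ∑ s ∈ S, (E.filter fun e => e * s ∉ E).card := by
      refine (card_le_card ?_).trans card_biUnion_le
      intro e he
      rw [mem_filter] at he
      obtain ⟨h1, s, hs, h2⟩ := he
      rw [mem_biUnion]
      exact ⟨s, hs, mem_filter.2 ⟨h1, h2⟩⟩
    have h2 : 2 ^ t * (E.filter fun e => ∃ s ∈ S, e * s ∉ E).card ≤ (∑ s ∈ S, C s) * E.card := by
      calc _ ≤ 2 ^ t * ∑ s ∈ S, (E.filter fun e => e * s ∉ E).card := Nat.mul_le_mul_left _ h1
        _ = ∑ s ∈ S, 2 ^ t * (E.filter fun e => e * s ∉ E).card := by rw [mul_sum]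
        _ ≤ ∑ s ∈ S, C s * E.card := by
            refine sum_le_sum fun s _ => ?_
            exact hC s t
        _ = _ := by rw [sum_mul]
    have h3 : (2 : ℝ) ^ t * ((E.filter fun e => ∃ s ∈ S, e * s ∉ E).card : ℝ) ≤
        ((∑ s ∈ S, C s : ℕ) : ℝ) * E.card := by exact_mod_cast h2
    have h4 : ((∑ s ∈ S, C s : ℕ) : ℝ) ≤ 2 ^ t * ε := by
      rw [div_lt_iff₀ hε] at ht
      exact ht.le
    have h5 : (0 : ℝ) < 2 ^ t := by positivity
    refine le_of_mul_le_mul_left ?_ h5
    calc _ ≤ ((∑ s ∈ S, C s : ℕ) : ℝ) * E.card := h3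
      _ ≤ (2 ^ t * ε) * E.card := mul_le_mul_of_nonneg_right h4 (Nat.cast_nonneg _)
      _ = _ := by ring

end Pool.Agent.H72.UJ
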