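import Pool.Agent.H72.UJ.Ring

/-! The group of one-units of the truncated ring and its bi-order. -/

set_option autoImplicit false

open Finset

namespace Pool.Agent.H72.UJ

variable {T : Type*} [Monoid T] [Gr T] {j : ℕ}

theorem coef_pow_zero {y : R T j} (hy : coef j (1 : T) y = 0) :
    ∀ (k : ℕ) (m : T), len m ≤ j → len m < k → coef j m (y ^ k) = 0 := by
  intro k
  induction k with
  | zero => intro m _ h; omega
  | succ k ih =>
    intro m hm hk
    rw [pow_succ, coef_mul hm]
    refine sum_eq_zero fun p hp => ?_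
    rw [mem_fac] at hp
    have hl := len_mul p.1 p.2
    rw [hp] at hl
    by_cases h2 : p.2 = 1
    · rw [h2, hy, mul_zero]
    · have := len_pos h2
      rw [ih p.1 (by omega) (by omega), zero_mul]

theorem isNilpotent_of_coef {y : R T j} (hy : coef j (1 : T) y = 0) : IsNilpotent y :=
  ⟨j + 1, ext_coef fun m hm => by rw [coef_pow_zero hy _ m hm (by omega), map_zero]⟩

theorem isUnit_of_coef {x : R T j} (hx : coef j (1 : T) x = 1) : IsUnit x := by
  have h : IsNilpotent (1 - x) := isNilpotent_of_coef (by rw [map_sub, coef_one_one, hx, sub_self])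
  have := h.isUnit_one_sub
  rwa [sub_sub_cancel] at this

variable (T j) in
/-- The group of one-units. -/
def Un : Subgroup (R T j)ˣ where
  carrier := {u | coef j (1 : T) (u : R T j) = 1}
  mul_mem' := by
    intro a b ha hb
    change coef j (1 : T) ((a : R T j) * (b : R T j)) = 1
    rw [coef_one_mul, ha, hb, mul_one]
  one_mem' := coef_one_one
  inv_mem' := by
    intro a ha
    have h : coef j (1 : T) ((a : R T j) * ((a⁻¹ : (R T j)ˣ) : R T j)) = 1 := by
      rw [Units.mul_inv, coef_one_one]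
    rw [coef_one_mul, ha, one_mul] at h
    exact h

/-- The coordinates. -/
noncomputable def c (g : Un T j) (m : T) : ℤ := coef j m ((g : (R T j)ˣ) : R T j)

@[simp] theorem c_at_one (g : Un T j) : c g 1 = 1 := g.2

theorem c_one {m : T} (hm : m ≠ 1) (hj : len m ≤ j) : c (1 : Un T j) m = 0 :=
  coef_one hm hj

theorem c_mul_fac (g h : Un T j) {m : T} (hm : len m ≤ j) :
    c (g * h) m = ∑ p ∈ fac m, c g p.1 * c h p.2 :=
  coef_mul hm _ _

theorem c_mul (g h : Un T j) {m : T} (h1 : m ≠ 1) (hm : len m ≤ j) :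
    c (g * h) m = c g m + c h m + ∑ p ∈ pfac m, c g p.1 * c h p.2 := by
  rw [c_mul_fac g h hm, sum_fac h1]
  simp

theorem c_ext {g h : Un T j} (H : ∀ m : T, m ≠ 1 → len m ≤ j → c g m = c h m) : g = h := by
  apply Subtype.ext
  apply Units.ext
  refine ext_coef fun m hm => ?_
  by_cases h1 : m = 1
  · subst h1
    exact (c_at_one g).trans (c_at_one h).symm
  · exact H m h1 hm

/-- The one-unit with given value. -/
noncomputable def Un.mk (x : R T j) (hx : coef j (1 : T) x = 1) : Un T j :=
  ⟨(isUnit_of_coef hx).unit, hx⟩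

theorem Un.coe_mk (x : R T j) (hx : coef j (1 : T) x = 1) :
    (((Un.mk x hx : Un T j) : (R T j)ˣ) : R T j) = x := rfl

open Classical in
/-- The one-unit with given coordinates. -/
noncomputable def ofCoord (j : ℕ) (a : T → ℤ) : Un T j :=
  Un.mk (ofC j fun m => if m = 1 then 1 else a m) (by
    rw [coef_ofC _ (by simp), if_pos rfl])

theorem c_ofCoord (a : T → ℤ) {m : T} (h1 : m ≠ 1) (hm : len m ≤ j) :
    c (ofCoord j a) m = a m := by
  classical
  have := coef_ofC (j := j) (fun m : T => if m = 1 then 1 else a m) hm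
  rw [if_neg h1] at this
  exact this

/-! ## The bi-order -/

/-- Proper factors are smaller. -/
class Mo (T : Type*) [Monoid T] [LinearOrder T] : Prop where
  fac_lt : ∀ a b : T, a ≠ 1 → b ≠ 1 → a < a * b ∧ b < a * b

section Order

variable [LinearOrder T] [Mo T]

/-- The comparison map. -/
noncomputable def toPi (g : Un T j) : Lex ((upto T j) → ℤ) := toLex fun m => c g m.1

omit [LinearOrder T] [Mo T] in
theorem toPi_injective : Function.Injective (toPi (T := T) (j := j)) := by
  intro g h hgh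
  refine c_ext fun m _ hm => ?_
  exact congrFun (toLex.injective hgh) ⟨m, mem_upto.2 hm⟩

noncomputable instance : LinearOrder (Un T j) := LinearOrder.lift' toPi toPi_injective

omit [Mo T] in
theorem lt_iff {x y : Un T j} :
    x < y ↔ ∃ m : T, len m ≤ j ∧ (∀ m' < m, len m' ≤ j → c x m' = c y m') ∧ c x m < c y m := by
  constructor
  · rintro ⟨i, h1, h2⟩
    refine ⟨i.1, mem_upto.1 i.2, fun m' hm' hl => ?_, h2⟩
    exact h1 ⟨m', mem_upto.2 hl⟩ hm'
  · rintro ⟨m, hm, h1, h2⟩
    exact ⟨⟨m, mem_upto.2 hm⟩, fun m' hm' => h1 m'.1 hm' (mem_upto.1 m'.2), h2⟩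

omit [Gr T] in
theorem snd_lt {m a b : T} (h : a * b = m) (hb : b ≠ m) : b = 1 ∨ b < m := by
  by_cases h1 : b = 1
  · exact Or.inl h1
  · right
    have ha : a ≠ 1 := by
      rintro rfl
      rw [one_mul] at h
      exact hb h
    rw [← h]
    exact (Mo.fac_lt a b ha h1).2

omit [Gr T] in
theorem fst_lt {m a b : T} (h : a * b = m) (ha : a ≠ m) : a = 1 ∨ a < m := by
  by_cases h1 : a = 1
  · exact Or.inl h1
  · right
    have hb : b ≠ 1 := by
      rintro rfl
      rw [mul_one] at h
      exact ha h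
    rw [← h]
    exact (Mo.fac_lt a b h1 hb).1

theorem mul_lt_left (g : Un T j) {x y : Un T j} (h : x < y) : g * x < g * y := by
  obtain ⟨m, hm, h1, h2⟩ := lt_iff.1 h
  have hm1 : m ≠ 1 := by
    rintro rfl
    simp at h2
  have key : ∀ b : T, (b = 1 ∨ b < m) → len b ≤ j → c x b = c y b := by
    rintro b (rfl | hb) hl
    · simp
    · exact h1 b hb hl
  refine lt_iff.2 ⟨m, hm, fun m' hm' hl => ?_, ?_⟩
  · rw [c_mul_fac _ _ hl, c_mul_fac _ _ hl]
    refine sum_congr rfl fun p hp => ?_
    rw [mem_fac] at hp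
    have hlen := len_mul p.1 p.2
    rw [hp] at hlen
    rw [key p.2 _ (by omega)]
    by_cases hpm : p.2 = m'
    · right; rw [hpm]; exact hm'
    · rcases snd_lt hp hpm with h | h
      · exact Or.inl h
      · exact Or.inr (h.trans hm')
  · rw [c_mul _ _ hm1 hm, c_mul _ _ hm1 hm]
    have : ∑ p ∈ pfac m, c g p.1 * c x p.2 = ∑ p ∈ pfac m, c g p.1 * c y p.2 := by
      refine sum_congr rfl fun p hp => ?_
      have hl := mem_pfac_len hp
      rw [mem_pfac] at hp
      rw [key p.2 (Or.inr _) (by omega)]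
      rw [← hp.1]
      exact (Mo.fac_lt _ _ hp.2.1 hp.2.2).2
    rw [this]
    omega

theorem mul_lt_right (g : Un T j) {x y : Un T j} (h : x < y) : x * g < y * g := by
  obtain ⟨m, hm, h1, h2⟩ := lt_iff.1 h
  have hm1 : m ≠ 1 := by
    rintro rfl
    simp at h2
  have key : ∀ b : T, (b = 1 ∨ b < m) → len b ≤ j → c x b = c y b := by
    rintro b (rfl | hb) hl
    · simp
    · exact h1 b hb hl
  refine lt_iff.2 ⟨m, hm, fun m' hm' hl => ?_, ?_⟩
  · rw [c_mul_fac _ _ hl, c_mul_fac _ _ hl]
    refine sum_congr rfl fun p hp => ?_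
    rw [mem_fac] at hp
    have hlen := len_mul p.1 p.2
    rw [hp] at hlen
    rw [key p.1 _ (by omega)]
    by_cases hpm : p.1 = m'
    · right; rw [hpm]; exact hm'
    · rcases fst_lt hp hpm with h | h
      · exact Or.inl h
      · exact Or.inr (h.trans hm')
  · rw [c_mul _ _ hm1 hm, c_mul _ _ hm1 hm]
    have : ∑ p ∈ pfac m, c x p.1 * c g p.2 = ∑ p ∈ pfac m, c y p.1 * c g p.2 := by
      refine sum_congr rfl fun p hp => ?_
      have hl := mem_pfac_len hp
      rw [mem_pfac] at hp
      rw [key p.1 (Or.inr _) (by omega)]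
      rw [← hp.1]
      exact (Mo.fac_lt _ _ hp.2.1 hp.2.2).1
    rw [this]
    omega

instance : MulLeftMono (Un T j) :=
  ⟨fun g x y h => by
    rcases eq_or_lt_of_le h with rfl | h
    · exact le_rfl
    · exact (mul_lt_left g h).le⟩

instance : MulRightMono (Un T j) :=
  ⟨fun g x y h => by
    rcases eq_or_lt_of_le h with rfl | h
    · exact le_rfl
    · exact (mul_lt_right g h).le⟩

omit [Mo T] in
/-- A one-unit is larger than `1` if and only if its first nonzero coordinate is positive. -/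
theorem one_lt_iff {x : Un T j} :
    1 < x ↔ ∃ m : T, m ≠ 1 ∧ len m ≤ j ∧ (∀ m' < m, m' ≠ 1 → len m' ≤ j → c x m' = 0) ∧
      0 < c x m := by
  rw [lt_iff]
  constructor
  · rintro ⟨m, hm, h1, h2⟩
    have hm1 : m ≠ 1 := by
      rintro rfl
      simp at h2
    rw [c_one hm1 hm] at h2
    refine ⟨m, hm1, hm, fun m' hm' h' hl => ?_, h2⟩
    rw [← h1 m' hm' hl, c_one h' hl]
  · rintro ⟨m, hm1, hm, h1, h2⟩
    refine ⟨m, hm, fun m' hm' hl => ?_, by rwa [c_one hm1 hm]⟩
    by_cases h' : m' = 1
    · subst h'; simp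
    · rw [h1 m' hm' h' hl, c_one h' hl]

end Order

end Pool.Agent.H72.UJ
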